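import Mathlib
import Pool.Agent.X97.Kato

/-!
# MP_97dcc2_an: closedness of distributional supersolutions under `L¹` convergence (Q1 is true)

For every open `Ω ⊆ ℝ^N` and every continuous `g` with the sign condition, distributional
supersolutions of `-Δu + g(u) = 0` are closed under `L¹(Ω)` convergence as soon as `g(u_n)` is
bounded in `L¹(Ω)`; no monotonicity of `g` is needed.  Proof: Kato's inequality for the concave
truncations `Φ_k` with `Φ_k' = 1` on `(-∞,k]` and `Φ_k' = 0` on `[k+1,∞)`, then Fatou's lemma in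
`n` (the positive part of `Φ_k'(t) g(t)` is bounded), then `k → ∞`.
-/

open MeasureTheory Filter Topology Set
open scoped ENNReal ContDiff

namespace Pool.Agent.Results.MP_97dcc2_an.Closedness

open Pool.Agent.X97

/-- `v ∈ L¹(Ω)`, `g(v) ∈ L¹(Ω)` and `-Δv + g(v) ≥ 0` in the sense of distributions on `Ω`:
`∫_Ω v (-Δφ) + ∫_Ω g(v) φ ≥ 0` for all `φ ∈ C_c^∞(Ω)`, `φ ≥ 0`. -/
def IsSupersolution {N : ℕ} (Ω : Set (EN N)) (g : ℝ → ℝ) (v : EN N → ℝ) : Prop :=
  IntegrableOn v Ω ∧ IntegrableOn (fun x => g (v x)) Ω ∧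
    ∀ φ : EN N → ℝ, IsTest Ω φ → (∀ x, 0 ≤ φ x) →
      0 ≤ (∫ x in Ω, v x * (-(lap φ x))) + ∫ x in Ω, g (v x) * φ x

/-! ### The truncations -/

/-- derivative of the truncation -/
noncomputable def th (k : ℕ) (t : ℝ) : ℝ := Real.smoothTransition (k + 1 - t)

/-- the truncation -/
noncomputable def Ph (k : ℕ) (t : ℝ) : ℝ := ∫ s in (0 : ℝ)..t, th k s

lemma th_cont (k : ℕ) : Continuous (th k) :=
  Real.smoothTransition.continuous.comp (continuous_const.sub continuous_id)

lemma th_nonneg (k : ℕ) (t : ℝ) : 0 ≤ th k t := Real.smoothTransition.nonneg _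

lemma th_le_one (k : ℕ) (t : ℝ) : th k t ≤ 1 := Real.smoothTransition.le_one _

lemma th_one {k : ℕ} {t : ℝ} (h : t ≤ k) : th k t = 1 :=
  Real.smoothTransition.one_of_one_le (by linarith)

lemma th_zero {k : ℕ} {t : ℝ} (h : (k : ℝ) + 1 ≤ t) : th k t = 0 :=
  Real.smoothTransition.zero_of_nonpos (by linarith)

lemma Ph_deriv (k : ℕ) (t : ℝ) : HasDerivAt (Ph k) (th k t) t :=
  intervalIntegral.integral_hasDerivAt_right ((th_cont k).intervalIntegrable _ _)
    ((th_cont k).stronglyMeasurableAtFilter _ _) (th_cont k).continuousAt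

lemma th_deriv (k : ℕ) (t : ℝ) :
    HasDerivAt (th k) (-(deriv Real.smoothTransition (k + 1 - t))) t := by
  have h1 : Differentiable ℝ Real.smoothTransition :=
    (Real.smoothTransition.contDiff (n := 1)).differentiable one_ne_zero
  have h2 : HasDerivAt (fun s : ℝ => (k : ℝ) + 1 - s) (-1) t := by
    simpa using (hasDerivAt_id t).const_sub ((k : ℝ) + 1)
  have h3 := (h1 ((k : ℝ) + 1 - t)).hasDerivAt.comp t h2
  have h4 : deriv Real.smoothTransition (k + 1 - t) * -1 =
      -(deriv Real.smoothTransition (k + 1 - t)) := by ring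
  rw [h4] at h3
  exact h3

lemma th'_cont (k : ℕ) : Continuous (fun t : ℝ => -(deriv Real.smoothTransition (k + 1 - t))) := by
  have h1 : Continuous (deriv Real.smoothTransition) :=
    (Real.smoothTransition.contDiff (n := 1)).continuous_deriv le_rfl
  exact (h1.comp (continuous_const.sub continuous_id)).neg

lemma th'_nonpos (k : ℕ) (t : ℝ) : -(deriv Real.smoothTransition (k + 1 - t)) ≤ 0 := by
  have := Real.smoothTransition.monotone.deriv_nonneg (x := (k : ℝ) + 1 - t)
  linarith

lemma Ph_eq {k : ℕ} {t : ℝ} (h : t ≤ k) : Ph k t = t := by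
  unfold Ph
  have : ∫ s in (0 : ℝ)..t, th k s = ∫ s in (0 : ℝ)..t, (1 : ℝ) := by
    apply intervalIntegral.integral_congr
    intro s hs
    apply th_one
    have hk : (0 : ℝ) ≤ k := Nat.cast_nonneg k
    have := hs.2
    exact this.trans (max_le hk h)
  rw [this]
  simp

lemma Ph_cont (k : ℕ) : Continuous (Ph k) :=
  continuous_iff_continuousAt.mpr fun t => (Ph_deriv k t).continuousAt

lemma Ph_lip (k : ℕ) (a b : ℝ) : |Ph k a - Ph k b| ≤ |a - b| := by
  have := Convex.norm_image_sub_le_of_norm_hasDerivWithin_le (C := 1) (s := univ) (f := Ph k)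
      (f' := th k) (fun x _ => (Ph_deriv k x).hasDerivWithinAt) (fun x _ => by
        rw [Real.norm_eq_abs, abs_of_nonneg (th_nonneg k x)]; exact th_le_one k x)
        convex_univ (mem_univ b) (mem_univ a)
  simpa using this

lemma Ph_abs (k : ℕ) (a : ℝ) : |Ph k a| ≤ |a| := by
  have := Ph_lip k a 0
  rw [Ph_eq (Nat.cast_nonneg k)] at this
  simpa using this

/-! ### The theorem -/

lemma main {N : ℕ} {Ω : Set (EN N)} (hΩ : IsOpen Ω) {g : ℝ → ℝ} (hg : Continuous g)
    (hsign : ∀ t, 0 ≤ g t * t) {u : ℕ → EN N → ℝ} (hsup : ∀ n, IsSupersolution Ω g (u n))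
    {C : ℝ} (hbd : ∀ n, ∫ x in Ω, |g (u n x)| ≤ C) {w : EN N → ℝ} (hw : IntegrableOn w Ω)
    (hconv : Tendsto (fun n => ∫ x in Ω, |u n x - w x|) atTop (𝓝 0)) :
    IsSupersolution Ω g w := by
  set μ : Measure (EN N) := volume.restrict Ω with hμ
  -- a.e. convergent subsequence
  have hmeas : TendstoInMeasure μ u atTop w := by
    apply tendstoInMeasure_of_tendsto_eLpNorm (p := 1) one_ne_zero
      (fun n => (hsup n).1.aestronglyMeasurable) hw.aestronglyMeasurable
    have h1 : ∀ n, eLpNorm (u n - w) 1 μ = ENNReal.ofReal (∫ x, |u n x - w x| ∂μ) := by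
      intro n
      have h2 : ENNReal.ofReal (∫ x, |u n x - w x| ∂μ) =
          ∫⁻ x, ENNReal.ofReal (|u n x - w x|) ∂μ :=
        ofReal_integral_eq_lintegral_ofReal ((hsup n).1.sub hw).abs
          (ae_of_all _ fun x => abs_nonneg _)
      rw [eLpNorm_one_eq_lintegral_enorm, h2]
      apply lintegral_congr
      intro x
      rw [← ofReal_norm]
      rfl
    refine (tendsto_congr h1).mpr ?_
    have h3 := (ENNReal.continuous_ofReal.tendsto 0).comp hconv
    rw [ENNReal.ofReal_zero] at h3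
    exact h3
  obtain ⟨ns, hns, hae⟩ := hmeas.exists_seq_tendsto_ae
  have hsub : Tendsto (fun n => ∫ x, |u (ns n) x - w x| ∂μ) atTop (𝓝 0) :=
    hconv.comp hns.tendsto_atTop
  -- `g(w)` is integrable
  have hgw : Integrable (fun x => g (w x)) μ := by
    have h1 := (fatou (μ := μ) (F := fun n x => |g (u (ns n) x)|) (f := fun x => |g (w x)|)
      (c := fun _ => C) (C := C) (fun n => (hsup (ns n)).2.1.abs)
      (fun n => ae_of_all _ fun x => abs_nonneg _)
      (by
        filter_upwards [hae] with x hx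
        exact ((hg.tendsto _).comp hx).abs)
      (fun n => hbd (ns n)) tendsto_const_nhds).1
    refine ⟨hg.comp_aestronglyMeasurable hw.aestronglyMeasurable, ?_⟩
    have h2 := h1.2
    rw [hasFiniteIntegral_iff_enorm] at h2 ⊢
    refine lt_of_le_of_lt (le_of_eq ?_) h2
    apply lintegral_congr
    intro x
    rw [← ofReal_norm, ← ofReal_norm, Real.norm_eq_abs, Real.norm_eq_abs, abs_abs]
  refine ⟨hw, hgw, fun φ hφ hφ0 => ?_⟩
  have hφ2 : ContDiff ℝ 2 φ := contDiff_infty.mp hφ.smooth 2
  obtain ⟨C1, hC1⟩ := (hasCompactSupport_lap hφ.compact).exists_bound_of_continuous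
    (continuous_lap hφ2)
  obtain ⟨C2, hC2⟩ := hφ.compact.exists_bound_of_continuous hφ.smooth.continuous
  have hφi : Integrable φ μ :=
    (hφ.smooth.continuous.integrable_of_hasCompactSupport hφ.compact).restrict
  have hlapm : AEStronglyMeasurable (lap φ) μ := (continuous_lap hφ2).aestronglyMeasurable
  have hφm : AEStronglyMeasurable φ μ := hφ.smooth.continuous.aestronglyMeasurable
  -- integrability facts
  have hI1 : ∀ (k : ℕ) {z : EN N → ℝ}, Integrable z μ →
      Integrable (fun x => Ph k (z x) * (-(lap φ x))) μ := by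
    intro k z hz
    refine (hz.abs.const_mul C1).mono' (((Ph_cont k).comp_aestronglyMeasurable
      hz.aestronglyMeasurable).mul hlapm.neg) (ae_of_all _ fun x => ?_)
    rw [norm_mul, norm_neg, mul_comm]
    exact mul_le_mul (hC1 x) (Ph_abs k _) (norm_nonneg _) ((norm_nonneg _).trans (hC1 x))
  have hI2 : ∀ (k : ℕ) {z : EN N → ℝ}, Integrable z μ → Integrable (fun x => g (z x)) μ →
      Integrable (fun x => (th k (z x) * g (z x)) * φ x) μ := by
    intro k z hz hgz
    refine (hgz.abs.const_mul C2).mono' ((((th_cont k).comp_aestronglyMeasurable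
      hz.aestronglyMeasurable).mul hgz.aestronglyMeasurable).mul hφm) (ae_of_all _ fun x => ?_)
    rw [norm_mul, norm_mul, mul_comm C2]
    refine mul_le_mul ?_ (hC2 x) (norm_nonneg _) (abs_nonneg _)
    calc ‖th k (z x)‖ * ‖g (z x)‖ ≤ 1 * ‖g (z x)‖ := by
          apply mul_le_mul_of_nonneg_right _ (norm_nonneg _)
          rw [Real.norm_eq_abs, abs_of_nonneg (th_nonneg _ _)]
          exact th_le_one _ _
      _ = |g (z x)| := by rw [one_mul, Real.norm_eq_abs]
  -- truncated inequality for the limit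
  have hk : ∀ k : ℕ, 0 ≤ (∫ x, Ph k (w x) * (-(lap φ x)) ∂μ) +
      ∫ x, (th k (w x) * g (w x)) * φ x ∂μ := by
    intro k
    -- the upper bound of `th k * g`
    obtain ⟨Γ, hΓ⟩ : ∃ Γ : ℝ, ∀ t, th k t * g t ≤ Γ := by
      obtain ⟨Γ, hΓ⟩ := (isCompact_Icc (a := (0 : ℝ)) (b := k + 1)).bddAbove_image
        (f := fun t => th k t * g t) ((th_cont k).mul hg).continuousOn
      refine ⟨max Γ 0, fun t => ?_⟩
      rcases lt_or_ge t 0 with ht | ht
      · refine le_trans ?_ (le_max_right _ _)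
        have h1 : g t ≤ 0 := by
          by_contra hc
          push Not at hc
          have := mul_neg_of_pos_of_neg hc ht
          linarith [hsign t]
        exact mul_nonpos_of_nonneg_of_nonpos (th_nonneg k t) h1
      · rcases le_or_gt ((k : ℝ) + 1) t with ht2 | ht2
        · rw [th_zero ht2, zero_mul]; exact le_max_right _ _
        · exact (hΓ ⟨t, ⟨ht, ht2.le⟩, rfl⟩).trans (le_max_left _ _)
    -- Kato's inequality for `u (ns n)`
    have hkato : ∀ n, 0 ≤ (∫ x, Ph k (u (ns n) x) * (-(lap φ x)) ∂μ) +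
        ∫ x, (th k (u (ns n) x) * g (u (ns n) x)) * φ x ∂μ := by
      intro n
      obtain ⟨h1, h2, h3⟩ := hsup (ns n)
      exact kato_dist hΩ h1 h2 h3 (Ph_deriv k) (th_deriv k) (th'_cont k) (th'_nonpos k)
        (th_nonneg k) (th_le_one k) φ hφ hφ0
    -- convergence of the first term
    have hlim : Tendsto (fun n => ∫ x, Ph k (u (ns n) x) * (-(lap φ x)) ∂μ) atTop
        (𝓝 (∫ x, Ph k (w x) * (-(lap φ x)) ∂μ)) := by
      rw [tendsto_iff_norm_sub_tendsto_zero]
      have hz : Tendsto (fun n => C1 * ∫ x, |u (ns n) x - w x| ∂μ) atTop (𝓝 0) := by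
        have := hsub.const_mul C1
        rwa [mul_zero] at this
      refine squeeze_zero (fun n => norm_nonneg _) (fun n => ?_) hz
      rw [← integral_sub (hI1 k (hsup (ns n)).1) (hI1 k hw), ← integral_const_mul]
      refine norm_integral_le_of_norm_le (((hsup (ns n)).1.sub hw).abs.const_mul _)
        (ae_of_all _ fun x => ?_)
      show ‖Ph k (u (ns n) x) * (-(lap φ x)) - Ph k (w x) * (-(lap φ x))‖ ≤
        C1 * |u (ns n) x - w x|
      rw [← sub_mul, norm_mul, norm_neg, mul_comm]
      exact mul_le_mul (hC1 x) (Ph_lip k _ _) (norm_nonneg _) ((norm_nonneg _).trans (hC1 x))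
    have hint : ∀ {z : EN N → ℝ}, Integrable z μ → Integrable (fun x => g (z x)) μ →
        ∫ x, (Γ - th k (z x) * g (z x)) * φ x ∂μ =
          Γ * ∫ x, φ x ∂μ - ∫ x, (th k (z x) * g (z x)) * φ x ∂μ := by
      intro z hz hgz
      rw [← integral_const_mul, ← integral_sub (hφi.const_mul Γ) (hI2 k hz hgz)]
      congr 1
      funext x
      ring
    have hfat := (fatou (μ := μ)
      (F := fun n x => (Γ - th k (u (ns n) x) * g (u (ns n) x)) * φ x)
      (f := fun x => (Γ - th k (w x) * g (w x)) * φ x)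
      (c := fun n => Γ * ∫ x, φ x ∂μ + ∫ x, Ph k (u (ns n) x) * (-(lap φ x)) ∂μ)
      (C := Γ * ∫ x, φ x ∂μ + ∫ x, Ph k (w x) * (-(lap φ x)) ∂μ)
      (fun n => by
        refine ((hφi.const_mul Γ).sub (hI2 k (hsup (ns n)).1 (hsup (ns n)).2.1)).congr
          (ae_of_all _ fun x => ?_)
        show Γ * φ x - (th k (u (ns n) x) * g (u (ns n) x)) * φ x = _
        ring)
      (fun n => ae_of_all _ fun x => mul_nonneg (sub_nonneg.mpr (hΓ _)) (hφ0 x))
      (by
        filter_upwards [hae] with x hx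
        have h1 := ((th_cont k).mul hg).tendsto (w x) |>.comp hx
        exact (tendsto_const_nhds.sub h1).mul_const _)
      (fun n => by
        rw [hint (hsup (ns n)).1 (hsup (ns n)).2.1]
        have := hkato n
        linarith)
      (tendsto_const_nhds.add hlim)).2
    rw [hint hw hgw] at hfat
    linarith
  -- `k → ∞`
  have hlimA : Tendsto (fun k : ℕ => ∫ x, Ph k (w x) * (-(lap φ x)) ∂μ) atTop
      (𝓝 (∫ x, w x * (-(lap φ x)) ∂μ)) := by
    apply tendsto_integral_of_dominated_convergence (fun x => C1 * |w x|)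
      (fun k => (hI1 k hw).aestronglyMeasurable) (hw.abs.const_mul C1)
    · intro k
      apply ae_of_all
      intro x
      rw [norm_mul, norm_neg, mul_comm]
      exact mul_le_mul (hC1 x) (Ph_abs k _) (norm_nonneg _) ((norm_nonneg _).trans (hC1 x))
    · apply ae_of_all
      intro x
      obtain ⟨K, hK⟩ := exists_nat_ge (w x)
      apply tendsto_const_nhds.congr'
      filter_upwards [eventually_ge_atTop K] with k hk'
      rw [Ph_eq (hK.trans (by exact_mod_cast hk'))]
  have hlimB : Tendsto (fun k : ℕ => ∫ x, (th k (w x) * g (w x)) * φ x ∂μ) atTop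
      (𝓝 (∫ x, g (w x) * φ x ∂μ)) := by
    apply tendsto_integral_of_dominated_convergence (fun x => C2 * |g (w x)|)
      (fun k => (hI2 k hw hgw).aestronglyMeasurable) (hgw.abs.const_mul C2)
    · intro k
      apply ae_of_all
      intro x
      rw [norm_mul, norm_mul, mul_comm C2]
      refine mul_le_mul ?_ (hC2 x) (norm_nonneg _) (abs_nonneg _)
      calc ‖th k (w x)‖ * ‖g (w x)‖ ≤ 1 * ‖g (w x)‖ := by
            apply mul_le_mul_of_nonneg_right _ (norm_nonneg _)
            rw [Real.norm_eq_abs, abs_of_nonneg (th_nonneg _ _)]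
            exact th_le_one _ _
        _ = |g (w x)| := by rw [one_mul, Real.norm_eq_abs]
    · apply ae_of_all
      intro x
      obtain ⟨K, hK⟩ := exists_nat_ge (w x)
      apply tendsto_const_nhds.congr'
      filter_upwards [eventually_ge_atTop K] with k hk'
      rw [th_one (hK.trans (by exact_mod_cast hk')), one_mul]
  exact ge_of_tendsto' (hlimA.add hlimB) hk

/-- **Q1 of MP_97dcc2_an is true.**  Let `Ω ⊆ ℝ^N` be open (bounded or not, no boundary
regularity), `g` continuous with `g(t) t ≥ 0`, `u_n ∈ L¹(Ω)` with `g(u_n) ∈ L¹(Ω)` and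
`-Δu_n + g(u_n) ≥ 0` in the sense of distributions, `sup_n ‖g(u_n)‖_{L¹(Ω)} < ∞` and `u_n → u` in
`L¹(Ω)`.  Then `g(u) ∈ L¹(Ω)` and `-Δu + g(u) ≥ 0` in the sense of distributions. -/
theorem result (N : ℕ) (Ω : Set (EN N)) (hΩ : IsOpen Ω) (g : ℝ → ℝ) (hg : Continuous g)
    (hsign : ∀ t, 0 ≤ g t * t) (u : ℕ → EN N → ℝ) (hsup : ∀ n, IsSupersolution Ω g (u n))
    (hbd : ∃ C : ℝ, ∀ n, ∫ x in Ω, |g (u n x)| ≤ C) (w : EN N → ℝ) (hw : IntegrableOn w Ω)
    (hconv : Tendsto (fun n => ∫ x in Ω, |u n x - w x|) atTop (𝓝 0)) :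
    IsSupersolution Ω g w := by
  obtain ⟨C, hC⟩ := hbd
  exact main hΩ hg hsign hsup hC hw hconv

end Pool.Agent.Results.MP_97dcc2_an.Closedness
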